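import Mathlib
import Pool.Agent.Helper894.Five.Final

set_option autoImplicit false

namespace Pool.Agent.Results.MP_05966f_nt.LowerExponent

open Pool.Agent.Helper894.Five in
/-- `log N_5(x) / log x ≥ 0.448` for all sufficiently large `x`, where `N_5(x)` is the number of
integers `1 ≤ n ≤ x` which reach 1 under the 5x+1 map. -/
theorem result :
    ∀ᶠ x : ℝ in Filter.atTop,
      0.448 ≤ Real.log ((Set.ncard {n : ℤ | 1 ≤ n ∧ (n : ℝ) ≤ x ∧
            ∃ k : ℕ, (fun m : ℤ => if m % 2 = 0 then m / 2 else (5 * m + 1) / 2)^[k] n = 1} : ℕ) : ℝ)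
          / Real.log x := by
  have h := log_form (c := fun x => (DX 1 x).ncard) (main_all (a := 1) (by norm_num))
  filter_upwards [h] with x hx
  rw [DX_one] at hx
  exact hx

end Pool.Agent.Results.MP_05966f_nt.LowerExponent
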